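import Pool.Agent.S7.V.Defs
import Pool.Agent.S7.Kbr

/-!
# S7, block T (helper36): translation invariance, abstract form

`Ψ : ℝ → K → (E →L[ℂ] H)` is the gauged family of kernels, `Bf m Ψ t a b = ⟪∫ Ψ t a, ∫ Ψ t b⟫`.
-/

set_option autoImplicit false

namespace Pool.Agent.S7

open MeasureTheory Filter Topology
open scoped ENNReal

/-! ## thin sets, residues -/

-- BEGIN ta1
/-- Finite unions of thin sets are thin (induction; the sum over `F ⊆ A ∪ B` is at most the sum over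
`F ∩ A` plus the sum over `F ∩ B`). -/
theorem Thin.union {A B : Set ℕ} (hA : Thin A) (hB : Thin B) : Thin (A ∪ B) := by
  classical
  obtain ⟨C, hC⟩ := hA
  obtain ⟨D, hD⟩ := hB
  refine ⟨C + D, fun F hF hp => ?_⟩
  have h1 : F ⊆ (F.filter (· ∈ A)) ∪ (F.filter (· ∈ B)) := by
    intro x hx
    rcases hF (Finset.mem_coe.2 hx) with h | h
    · exact Finset.mem_union_left _ (Finset.mem_filter.2 ⟨hx, h⟩)
    · exact Finset.mem_union_right _ (Finset.mem_filter.2 ⟨hx, h⟩)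
  have h2 : ∑ q ∈ F, (1 : ℝ) / q ≤
      ∑ q ∈ (F.filter (· ∈ A)) ∪ (F.filter (· ∈ B)), (1 : ℝ) / q :=
    Finset.sum_le_sum_of_subset_of_nonneg h1 fun _ _ _ => by positivity
  have h3 : ∑ q ∈ (F.filter (· ∈ A)) ∪ (F.filter (· ∈ B)), (1 : ℝ) / q ≤
      ∑ q ∈ F.filter (· ∈ A), (1 : ℝ) / q + ∑ q ∈ F.filter (· ∈ B), (1 : ℝ) / q := by
    rw [← Finset.sum_union_inter]
    have : 0 ≤ ∑ q ∈ (F.filter (· ∈ A)) ∩ (F.filter (· ∈ B)), (1 : ℝ) / q :=
      Finset.sum_nonneg fun _ _ => by positivity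
    linarith
  have h4 := hC (F.filter (· ∈ A)) (fun x hx => (Finset.mem_filter.1 (Finset.mem_coe.1 hx)).2)
    (fun q hq => hp q (Finset.mem_filter.1 hq).1)
  have h5 := hD (F.filter (· ∈ B)) (fun x hx => (Finset.mem_filter.1 (Finset.mem_coe.1 hx)).2)
    (fun q hq => hp q (Finset.mem_filter.1 hq).1)
  linarith

theorem Thin.mono {A B : Set ℕ} (hB : Thin B) (h : A ⊆ B) : Thin A := by
  obtain ⟨C, hC⟩ := hB
  exact ⟨C, fun F hF hp => hC F (hF.trans h) hp⟩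

theorem thin_empty : Thin ∅ := by
  refine ⟨0, fun F hF _ => ?_⟩
  have h1 : F = ∅ := by
    rw [Finset.eq_empty_iff_forall_notMem]
    exact fun x hx => hF (Finset.mem_coe.2 hx)
  rw [h1, Finset.sum_empty]

theorem Thin.biUnion {ι : Type*} (s : Finset ι) (B : ι → Set ℕ) (h : ∀ i ∈ s, Thin (B i)) :
    Thin (⋃ i ∈ s, B i) := by
  classical
  induction s using Finset.induction_on with
  | empty =>
    refine thin_empty.mono ?_
    simp
  | insert i s hi ih =>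
    rw [Finset.set_biUnion_insert]
    exact (h i (Finset.mem_insert_self i s)).union
      (ih fun j hj => h j (Finset.mem_insert_of_mem hj))

/-- finite sets are thin -/
theorem thin_lt (n : ℕ) : Thin {q | q < n} := by
  refine ⟨∑ q ∈ Finset.range n, (1 : ℝ) / q, fun F hF _ => ?_⟩
  refine Finset.sum_le_sum_of_subset_of_nonneg (fun x hx => ?_) fun _ _ _ => by positivity
  exact Finset.mem_range.2 (hF (Finset.mem_coe.2 hx))

theorem mod_one_of_dvd {q Q Q' : ℕ} (h : Q' ∣ Q) (hq : q % Q = 1 % Q) : q % Q' = 1 % Q' :=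
  Nat.ModEq.of_dvd h hq
-- END ta1

/-! ## finitely valued functions -/

section fm

variable {K : Type*} [MeasurableSpace K]

-- BEGIN ta2
private theorem ta2_preimage {X : Type*} {f : K → X} (hf : FM f) (A : Set X) :
    MeasurableSet (f ⁻¹' A) := by
  have h : f ⁻¹' A = ⋃ z ∈ (Set.range f ∩ A), f ⁻¹' {z} := by
    ext y
    simp only [Set.mem_preimage, Set.mem_iUnion, Set.mem_inter_iff, Set.mem_singleton_iff,
      exists_prop]
    constructor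
    · intro hy
      exact ⟨f y, ⟨⟨y, rfl⟩, hy⟩, rfl⟩
    · rintro ⟨z, ⟨_, hz⟩, hyz⟩
      rw [hyz]
      exact hz
  rw [h]
  exact Set.Finite.measurableSet_biUnion (hf.1.subset Set.inter_subset_left) (fun z _ => hf.2 z)

theorem FM.comp {X Y : Type*} {f : K → X} (hf : FM f) (φ : X → Y) : FM (fun y => φ (f y)) := by
  constructor
  · have h : Set.range (fun y => φ (f y)) = φ '' Set.range f := Set.range_comp φ f
    rw [h]
    exact hf.1.image φ
  · intro x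
    exact ta2_preimage hf (φ ⁻¹' {x})

theorem FM.comp_meas {X : Type*} {f : K → X} (hf : FM f) {φ : K → K} (hφ : Measurable φ) :
    FM (fun y => f (φ y)) := by
  constructor
  · refine hf.1.subset ?_
    rintro _ ⟨y, rfl⟩
    exact ⟨φ y, rfl⟩
  · intro x
    exact hφ (hf.2 x)

theorem FM.prod {X Y : Type*} {f : K → X} {g : K → Y} (hf : FM f) (hg : FM g) :
    FM (fun y => (f y, g y)) := by
  constructor
  · refine (hf.1.prod hg.1).subset ?_
    rintro _ ⟨y, rfl⟩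
    exact ⟨⟨y, rfl⟩, ⟨y, rfl⟩⟩
  · rintro ⟨a, b⟩
    have h : (fun y => (f y, g y)) ⁻¹' {(a, b)} = f ⁻¹' {a} ∩ g ⁻¹' {b} := by
      ext y
      simp only [Set.mem_preimage, Set.mem_singleton_iff, Set.mem_inter_iff, Prod.mk.injEq]
    rw [h]
    exact (hf.2 a).inter (hg.2 b)

theorem FM.mul {X : Type*} [Mul X] {f g : K → X} (hf : FM f) (hg : FM g) :
    FM (fun y => f y * g y) :=
  (hf.prod hg).comp (fun z : X × X => z.1 * z.2)

theorem FM.inv {X : Type*} [Inv X] {f : K → X} (hf : FM f) : FM (fun y => (f y)⁻¹) :=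
  hf.comp (fun z => z⁻¹)

theorem FM.pow {X : Type*} [Monoid X] {f : K → X} (hf : FM f) (n : ℕ) :
    FM (fun y => f y ^ n) :=
  hf.comp (fun z => z ^ n)

theorem FM.measurable {X : Type*} [MeasurableSpace X] {f : K → X} (hf : FM f) : Measurable f :=
  fun A _ => ta2_preimage hf A

theorem FM.const {X : Type*} (x : X) : FM (fun _ : K => x) := by
  constructor
  · refine (Set.finite_singleton x).subset ?_
    rintro _ ⟨y, rfl⟩
    exact rfl
  · intro z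
    exact MeasurableSet.const (x = z)
-- END ta2

variable {E : Type*} [NormedAddCommGroup E] [InnerProductSpace ℂ E] [FiniteDimensional ℂ E]
  [MeasurableSpace E] [BorelSpace E]
  {H : Type*} [NormedAddCommGroup H] [InnerProductSpace ℂ H]

-- BEGIN ta3
private theorem ta3_meas {X W : Type*} [MeasurableSpace W] {τ : K → X} (hτ : FM τ) {g : X → K → W}
    (hg : ∀ h, Measurable (g h)) : Measurable (fun y => g (τ y) y) := by
  intro s hs
  have h1 : (fun y => g (τ y) y) ⁻¹' s = ⋃ h ∈ Set.range τ, (τ ⁻¹' {h} ∩ (g h) ⁻¹' s) := by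
    ext y
    simp only [Set.mem_preimage, Set.mem_iUnion, Set.mem_inter_iff, Set.mem_singleton_iff,
      exists_prop]
    constructor
    · intro hy
      exact ⟨τ y, ⟨y, rfl⟩, rfl, hy⟩
    · rintro ⟨h, -, hh, hy⟩
      rw [hh]
      exact hy
  rw [h1]
  exact Set.Finite.measurableSet_biUnion hτ.1 (fun h _ => (hτ.2 h).inter (hg h hs))

/-- `a` and `τ a` have the same norm; `τ a` is measurable since it is `∑_h 1[τ = h] h (a y)`, the sum over
the range of `τ`. -/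
theorem BMf.act {a : K → E} (ha : BMf a) {τ : K → (E ≃ₗᵢ[ℂ] E)} (hτ : FM τ) :
    BMf (fun y => τ y (a y)) := by
  refine ⟨?_, ?_⟩
  · exact ta3_meas (g := fun (h : E ≃ₗᵢ[ℂ] E) (y : K) => h (a y)) hτ
      (fun h => h.continuous.measurable.comp ha.meas)
  · obtain ⟨C, hC⟩ := ha.bdd
    refine ⟨C, fun y => ?_⟩
    have h1 : ‖τ y (a y)‖ = ‖a y‖ := (τ y).norm_map (a y)
    rw [h1]
    exact hC y

theorem FM.sm_opU {τ : K → (E ≃ₗᵢ[ℂ] E)} (hτ : FM τ) : StronglyMeasurable (fun y => opU (τ y)) := by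
  have hfin : (Set.range (fun y => opU (τ y))).Finite := by
    have h1 : Set.range (fun y => opU (τ y)) = (fun h : E ≃ₗᵢ[ℂ] E => opU h) '' Set.range τ := by
      rw [← Set.range_comp]
      rfl
    rw [h1]
    exact hτ.1.image _
  have hfib : ∀ x, MeasurableSet ((fun y => opU (τ y)) ⁻¹' {x}) := by
    intro x
    have h1 : (fun y => opU (τ y)) ⁻¹' {x} =
        ⋃ h ∈ (Set.range τ ∩ {h : E ≃ₗᵢ[ℂ] E | opU h = x}), τ ⁻¹' {h} := by
      ext y
      simp only [Set.mem_preimage, Set.mem_iUnion, Set.mem_singleton_iff, exists_prop,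
        Set.mem_inter_iff, Set.mem_setOf_eq]
      constructor
      · intro hy
        exact ⟨τ y, ⟨⟨y, rfl⟩, hy⟩, rfl⟩
      · rintro ⟨h, ⟨-, hh⟩, hy⟩
        rw [hy]
        exact hh
    rw [h1]
    exact Set.Finite.measurableSet_biUnion (hτ.1.subset Set.inter_subset_left) (fun h _ => hτ.2 h)
  exact (SimpleFunc.mk (fun y => opU (τ y)) hfib hfin).stronglyMeasurable

theorem sm_comp_opU {Ψ : K → (E →L[ℂ] H)} (hΨ : StronglyMeasurable Ψ) {τ : K → (E ≃ₗᵢ[ℂ] E)}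
    (hτ : FM τ) : StronglyMeasurable (fun y => (Ψ y).comp (opU (τ y))) := by
  have h1 : Continuous (fun p : (E →L[ℂ] H) × (E →L[ℂ] E) => p.1.comp p.2) :=
    continuous_fst.clm_comp continuous_snd
  exact h1.comp_stronglyMeasurable (hΨ.prodMk hτ.sm_opU)

/-- `‖A U - B U‖ ≤ ‖A - B‖` -/
theorem norm_comp_opU_sub (A B : E →L[ℂ] H) (h : E ≃ₗᵢ[ℂ] E) :
    ‖A.comp (opU h) - B.comp (opU h)‖ ≤ ‖A - B‖ := by
  refine ContinuousLinearMap.opNorm_le_bound _ (norm_nonneg _) (fun v => ?_)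
  have h1 : (A.comp (opU h) - B.comp (opU h)) v = (A - B) (h v) := rfl
  have h2 : ‖h v‖ = ‖v‖ := h.norm_map v
  rw [h1, ← h2]
  exact (A - B).le_opNorm (h v)

theorem norm_comp_opU (A : E →L[ℂ] H) (h : E ≃ₗᵢ[ℂ] E) : ‖A.comp (opU h)‖ ≤ ‖A‖ := by
  refine ContinuousLinearMap.opNorm_le_bound _ (norm_nonneg _) (fun v => ?_)
  have h1 : (A.comp (opU h)) v = A (h v) := rfl
  have h2 : ‖h v‖ = ‖v‖ := h.norm_map v
  rw [h1, ← h2]
  exact A.le_opNorm (h v)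
-- END ta3

end fm

section op

variable {K : Type*} [MeasurableSpace K] {m : Measure K} [IsProbabilityMeasure m]
  {E : Type*} [NormedAddCommGroup E] [InnerProductSpace ℂ E] [FiniteDimensional ℂ E]
  [MeasurableSpace E] [BorelSpace E]
  {H : Type*} [NormedAddCommGroup H] [InnerProductSpace ℂ H] [CompleteSpace H]

/-- `∫ Ψ a` -/
noncomputable def opI (m : Measure K) (Ψ : K → (E →L[ℂ] H)) (a : K → E) : H := ∫ y, Ψ y (a y) ∂m

-- BEGIN ta4
/-- (StronglyMeasurable.apply / clm_apply; bounded) -/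
theorem integrable_app {Ψ : K → (E →L[ℂ] H)} (hΨ : StronglyMeasurable Ψ) {C : ℝ}
    (hC : ∀ y, ‖Ψ y‖ ≤ C) {a : K → E} (ha : BMf a) : Integrable (fun y => Ψ y (a y)) m := by
  obtain ⟨D, hD⟩ := ha.bdd
  have ham : StronglyMeasurable a := by
    have : SecondCountableTopology E := by
      have : ProperSpace E := FiniteDimensional.proper ℂ E
      exact secondCountable_of_proper
    exact ha.meas.stronglyMeasurable
  have hsm : StronglyMeasurable (fun y => Ψ y (a y)) :=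
    isBoundedBilinearMap_apply.continuous.comp_stronglyMeasurable (hΨ.prodMk ham)
  refine Integrable.of_bound hsm.aestronglyMeasurable (C * D) ?_
  refine Filter.Eventually.of_forall fun y => ?_
  exact ((Ψ y).le_opNorm (a y)).trans
    (mul_le_mul (hC y) (hD y) (norm_nonneg _) ((norm_nonneg _).trans (hC y)))

theorem norm_opI_le {Ψ : K → (E →L[ℂ] H)} {C D : ℝ} (hC : ∀ y, ‖Ψ y‖ ≤ C) (hC0 : 0 ≤ C)
    {a : K → E} (hD : ∀ y, ‖a y‖ ≤ D) : ‖opI m Ψ a‖ ≤ C * D := by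
  have h := norm_integral_le_of_norm_le_const (μ := m) (f := fun y => Ψ y (a y)) (C := C * D)
    (Filter.Eventually.of_forall fun y => ((Ψ y).le_opNorm (a y)).trans
      (mul_le_mul (hC y) (hD y) (norm_nonneg _) hC0))
  simpa [opI] using h

theorem norm_opI_sub_le {Ψ Ψ' : K → (E →L[ℂ] H)} (hΨ : StronglyMeasurable Ψ)
    (hΨ' : StronglyMeasurable Ψ') {C D : ℝ} (hC : ∀ y, ‖Ψ y‖ ≤ C) (hC' : ∀ y, ‖Ψ' y‖ ≤ C)
    {a : K → E} (ha : BMf a) (hD : ∀ y, ‖a y‖ ≤ D) :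
    ‖opI m Ψ a - opI m Ψ' a‖ ≤ D * ∫ y, ‖Ψ y - Ψ' y‖ ∂m := by
  have h1 : Integrable (fun y => Ψ y (a y)) m := integrable_app hΨ hC ha
  have h2 : Integrable (fun y => Ψ' y (a y)) m := integrable_app hΨ' hC' ha
  have h3 : Integrable (fun y => ‖Ψ y - Ψ' y‖) m := by
    refine Integrable.of_bound (hΨ.sub hΨ').norm.aestronglyMeasurable (C + C) ?_
    refine Filter.Eventually.of_forall fun y => ?_
    rw [norm_norm]
    exact (norm_sub_le _ _).trans (add_le_add (hC y) (hC' y))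
  unfold opI
  rw [← integral_sub h1 h2, ← integral_const_mul]
  refine norm_integral_le_of_norm_le (h3.const_mul D) (Filter.Eventually.of_forall fun y => ?_)
  have h4 : Ψ y (a y) - Ψ' y (a y) = (Ψ y - Ψ' y) (a y) := rfl
  rw [h4, mul_comm]
  exact ((Ψ y - Ψ' y).le_opNorm (a y)).trans
    (mul_le_mul_of_nonneg_left (hD y) (norm_nonneg _))

theorem norm_inner_sub_le (x y x' y' : H) :
    ‖inner ℂ x y - inner ℂ x' y'‖ ≤ ‖x - x'‖ * ‖y‖ + ‖x'‖ * ‖y - y'‖ := by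
  have h : (inner ℂ x y : ℂ) - inner ℂ x' y' = inner ℂ (x - x') y + inner ℂ x' (y - y') := by
    rw [inner_sub_left, inner_sub_right]; ring
  rw [h]
  exact (norm_add_le _ _).trans (add_le_add (norm_inner_le_norm _ _) (norm_inner_le_norm _ _))

/-- the form -/
theorem inner_opI {Ψ Ψ' : K → (E →L[ℂ] H)} (hΨ : StronglyMeasurable Ψ) (hΨ' : StronglyMeasurable Ψ')
    {C : ℝ} (hC : ∀ y, ‖Ψ y‖ ≤ C) (hC' : ∀ y, ‖Ψ' y‖ ≤ C) {a b : K → E} (ha : BMf a)
    (hb : BMf b) :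
    inner ℂ (opI m Ψ a) (opI m Ψ' b) = ∫ x, ∫ x', inner ℂ (Ψ x (a x)) (Ψ' x' (b x')) ∂m ∂m := by
  have h1 : Integrable (fun y => Ψ y (a y)) m := integrable_app hΨ hC ha
  have h2 : Integrable (fun y => Ψ' y (b y)) m := integrable_app hΨ' hC' hb
  have h3 : ∀ x, ∫ x', inner ℂ (Ψ x (a x)) (Ψ' x' (b x')) ∂m = inner ℂ (Ψ x (a x)) (opI m Ψ' b) :=
    fun x => integral_inner h2 _
  simp only [h3]
  have h4 : ∀ x, (inner ℂ (Ψ x (a x)) (opI m Ψ' b) : ℂ) =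
      (starRingEnd ℂ) (inner ℂ (opI m Ψ' b) (Ψ x (a x))) := fun x => (inner_conj_symm _ _).symm
  simp only [h4]
  rw [integral_conj, integral_inner h1, inner_conj_symm]
  rfl
-- END ta4

end op

section main

variable {K : Type*} [CommGroup K] [TopologicalSpace K] [IsTopologicalGroup K] [CompactSpace K]
  [T2Space K] [SecondCountableTopology K] [MeasurableSpace K] [BorelSpace K]
  {u : K} {m : Measure K} [IsProbabilityMeasure m] [m.IsHaarMeasure]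
  {E : Type*} [NormedAddCommGroup E] [InnerProductSpace ℂ E] [FiniteDimensional ℂ E]
  [MeasurableSpace E] [BorelSpace E]
  {H : Type*} [NormedAddCommGroup H] [InnerProductSpace ℂ H] [CompleteSpace H]

-- BEGIN ta5
/-- null sets under powers (`map_pow`) -/
theorem ae_pow (hK : KD K u) {q : ℕ} (hq : 1 ≤ q) {p : K → Prop} (h : ∀ᵐ y ∂m, p y) :
    ∀ᵐ x ∂m, p (x ^ q) := by
  have hm : Measurable (fun x : K => x ^ q) := (continuous_pow q).measurable
  refine ae_of_ae_map (f := fun x : K => x ^ q) hm.aemeasurable ?_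
  rw [map_pow hK hq]
  exact Measure.ae_smul_measure (ae_restrict_of_ae h) _

theorem Fam.C_nonneg {V : Type*} [NormedAddCommGroup V] {C : ℝ} {Φ : ℝ → K → V}
    (hΦ : Fam m C Φ) : 0 ≤ C := by
  exact (norm_nonneg _).trans (hΦ.bdd 0 1)

/-- the gauged family is a family -/
theorem Fam.gauge {C : ℝ} {Φ : ℝ → K → (E →L[ℂ] H)} (hΦ : Fam m C Φ) {f : K → (E ≃ₗᵢ[ℂ] E)}
    (hf : FM f) : Fam m C (fun t y => (Φ t y).comp (opU (f y))) := by
  refine ⟨fun t => sm_comp_opU (hΦ.sm t) hf, fun t y => (norm_comp_opU _ _).trans (hΦ.bdd t y),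
    fun t t' => ?_⟩
  filter_upwards [hΦ.cont t t'] with y hy
  exact (norm_comp_opU_sub _ _ _).trans hy

/-- T1: `τ' x = f (x^q')⁻¹ * τ x * f (x^q)`. Off the same null set. -/
theorem Rel.gauge {Φ : ℝ → K → (E →L[ℂ] H)} {q q' : ℕ} {τ : K → (E ≃ₗᵢ[ℂ] E)}
    (h : Rel m Φ q q' τ) (f : K → (E ≃ₗᵢ[ℂ] E)) :
    Rel m (fun t y => (Φ t y).comp (opU (f y))) q q'
      (fun x => (f (x ^ q'))⁻¹ * τ x * f (x ^ q)) := by
  intro t
  obtain ⟨N, hN, hR⟩ := h t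
  refine ⟨N, hN, fun x hx x' hx' e e' => ?_⟩
  have h1 := hR x hx x' hx' (f (x ^ q) e) (f (x' ^ q) e')
  have h2 : ∀ (x : K) (e : E),
      f (x ^ q') (((f (x ^ q'))⁻¹ * τ x * f (x ^ q)) e) = τ x (f (x ^ q) e) := by
    intro x e
    rw [LinearIsometryEquiv.coe_mul, LinearIsometryEquiv.coe_mul]
    simp only [Function.comp_apply]
    exact LinearIsometryEquiv.apply_symm_apply (f (x ^ q')) _
  have h3 : ∀ (A : E →L[ℂ] H) (g : E ≃ₗᵢ[ℂ] E) (e : E), (A.comp (opU g)) e = A (g e) :=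
    fun _ _ _ => rfl
  simp only [h3, h2]
  exact h1

theorem Sup.gauge {G : Subgroup (E ≃ₗᵢ[ℂ] E)} {Φ : ℝ → K → (E →L[ℂ] H)} (h : Sup m G Φ)
    {f : K → (E ≃ₗᵢ[ℂ] E)} (hf : FM f) (hfG : ∀ y, f y ∈ G) :
    Sup m G (fun t y => (Φ t y).comp (opU (f y))) := by
  intro ρ₀ hρ₀
  obtain ⟨ρ₁, h1, h2⟩ := h ρ₀ hρ₀
  refine ⟨ρ₁, h1, fun B hB Q hQ P₀ => ?_⟩
  obtain ⟨q, q', τ, hq, hq', hqB, hqB', hm, hm', hP, hl, hu, hτ, hG, hR⟩ := h2 B hB Q hQ P₀
  refine ⟨q, q', fun x => (f (x ^ q'))⁻¹ * τ x * f (x ^ q), hq, hq', hqB, hqB', hm, hm', hP, hl,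
    hu, ?_, fun y => ?_, hR.gauge f⟩
  · exact FM.mul (FM.mul (FM.inv (FM.comp_meas hf (continuous_pow q').measurable)) hτ)
      (FM.comp_meas hf (continuous_pow q).measurable)
  · exact G.mul_mem (G.mul_mem (G.inv_mem (hfG _)) (hG y)) (hfG _)
-- END ta5

/-- the form `B_t(a, b)` -/
noncomputable def Bf (m : Measure K) (Ψ : ℝ → K → (E →L[ℂ] H)) (t : ℝ) (a b : K → E) : ℂ :=
  inner ℂ (opI m (Ψ t) a) (opI m (Ψ t) b)

-- BEGIN ta6
/-- the relation, integrated (`inner_opI` for `x ↦ Ψ t (x^q)` and `ae`) -/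
theorem Rel.int {C : ℝ} {Ψ : ℝ → K → (E →L[ℂ] H)} (hΨ : Fam m C Ψ) {q q' : ℕ}
    {τ : K → (E ≃ₗᵢ[ℂ] E)} (hτ : FM τ) (h : Rel m Ψ q q' τ) (t : ℝ) {a b : K → E} (ha : BMf a)
    (hb : BMf b) :
    inner ℂ (opI m (fun x => Ψ t (x ^ q)) a) (opI m (fun x => Ψ t (x ^ q)) b) =
      inner ℂ (opI m (fun x => Ψ (t + (Real.log q' - Real.log q)) (x ^ q')) (fun x => τ x (a x)))
        (opI m (fun x => Ψ (t + (Real.log q' - Real.log q)) (x ^ q')) (fun x => τ x (b x))) := by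
  obtain ⟨N, hN, hrel⟩ := h t
  have hsm : ∀ (s : ℝ) (k : ℕ), StronglyMeasurable (fun x : K => Ψ s (x ^ k)) := fun s k =>
    (hΨ.sm s).comp_measurable (continuous_pow k).measurable
  have hN' : ∀ᵐ x ∂m, x ∉ N := by
    rw [ae_iff]
    simpa using hN
  rw [inner_opI (hsm t q) (hsm t q) (fun y => hΨ.bdd t _) (fun y => hΨ.bdd t _) ha hb,
    inner_opI (hsm _ q') (hsm _ q') (fun y => hΨ.bdd _ _) (fun y => hΨ.bdd _ _) (ha.act hτ)
      (hb.act hτ)]
  refine integral_congr_ae ?_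
  filter_upwards [hN'] with x hx
  refine integral_congr_ae ?_
  filter_upwards [hN'] with x' hx'
  exact hrel x hx x' hx' (a x) (b x')
-- END ta6

-- BEGIN ta7
private theorem ta7_pow (χ : PontryaginDual K) (x : K) (n : ℕ) : (χ ^ n) x = χ x ^ n := by
  induction n with
  | zero => rw [pow_zero, pow_zero]; rfl
  | succ k ih =>
    rw [pow_succ, pow_succ, ← ih]
    rfl

/-- torsion characters of order dividing `Q` do not see the power `q ≡ 1 mod Q` -/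
theorem chr_pow_eq {χ : PontryaginDual K} {n Q q : ℕ} (hn : χ ^ n = 1) (hnQ : n ∣ Q)
    (hq : q % Q = 1 % Q) (hq1 : 1 ≤ q) (x : K) : χ (x ^ q) = χ x := by
  have h1 : n ∣ q - 1 := by
    have h2 : q ≡ 1 [MOD n] := Nat.ModEq.of_dvd hnQ hq
    exact (Nat.modEq_iff_dvd' hq1).mp h2.symm
  obtain ⟨k, hk⟩ := h1
  have h3 : q = n * k + 1 := by omega
  have h4 : χ x ^ n = 1 := by
    rw [← ta7_pow, hn]
    rfl
  have h5 : χ (x ^ q) = χ x ^ q := _root_.map_pow χ x q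
  rw [h5, h3, pow_succ, pow_mul, h4, one_pow, one_mul]

private theorem ta7_sm {V : Type*} [NormedAddCommGroup V] [NormedSpace ℂ V] {n : ℕ}
    (χ : Fin n → PontryaginDual K) (v : Fin n → V) :
    StronglyMeasurable (fun y : K => ∑ i, ((χ i y : Circle) : ℂ) • v i) := by
  refine Finset.stronglyMeasurable_fun_sum _ fun i _ => ?_
  have h1 : Continuous (fun y : K => ((χ i y : Circle) : ℂ)) :=
    continuous_subtype_val.comp (map_continuous (χ i))
  exact h1.stronglyMeasurable.smul_const (v i)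

/-- T2 for one `t`: `P` a trigonometric polynomial in torsion characters with `∫ ‖F - P‖ ≤ ε / 4`, `Q` the product
of the orders, `B` the bad set of `good` for `g = ‖F - P‖` (bounded and measurable), `δ = ε / 4`. -/
theorem tor_good (hK : KD K u) {V : Type*} [NormedAddCommGroup V] [NormedSpace ℂ V] {C : ℝ}
    {F : K → V} (hF : StronglyMeasurable F) (hC : ∀ y, ‖F y‖ ≤ C) (ht : Tor1 m F) {ε : ℝ}
    (hε : 0 < ε) :
    ∃ (Q : ℕ) (B : Set ℕ), 1 ≤ Q ∧ Thin B ∧ ∀ q : ℕ, q.Prime → q ∉ B → q % Q = 1 % Q →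
      ∫ x, ‖F (x ^ q) - F x‖ ∂m ≤ ε := by
  obtain ⟨n, χ, v, hχ, hint⟩ := ht (ε / 4) (by positivity)
  choose o ho1 ho using hχ
  set P : K → V := fun y => ∑ i, ((χ i y : Circle) : ℂ) • v i with hP
  have hPsm : StronglyMeasurable P := ta7_sm χ v
  have hPb : ∀ y, ‖P y‖ ≤ ∑ i, ‖v i‖ := by
    intro y
    refine (norm_sum_le _ _).trans (Finset.sum_le_sum fun i _ => ?_)
    rw [norm_smul, Circle.norm_coe, one_mul]
  set g : K → ℝ := fun y => ‖F y - P y‖ with hg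
  have hgsm : StronglyMeasurable g := (hF.sub hPsm).norm
  have hgb : ∀ y, ‖g y‖ ≤ C + ∑ i, ‖v i‖ := by
    intro y
    rw [hg, norm_norm]
    exact (norm_sub_le _ _).trans (add_le_add (hC y) (hPb y))
  have hgL : ∀ (f : K → ℝ), StronglyMeasurable f → (∀ y, ‖f y‖ ≤ C + ∑ i, ‖v i‖) →
      Integrable f m := fun f hf hb =>
    (MemLp.of_bound (p := 1) hf.aestronglyMeasurable (C + ∑ i, ‖v i‖)
      (Filter.Eventually.of_forall hb)).integrable le_rfl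
  have hg2 : MemLp g 2 m := MemLp.of_bound hgsm.aestronglyMeasurable (C + ∑ i, ‖v i‖)
    (Filter.Eventually.of_forall hgb)
  have hQ1 : 0 < ∏ i, o i := Finset.prod_pos fun i _ => ho1 i
  refine ⟨∏ i, o i, _, hQ1, good hK hg2 (δ := ε / 4) (by positivity), ?_⟩
  intro q hq hqB hqQ
  have hqB' : |∫ y, g (y ^ q) ∂m - ∫ y, g y ∂m| ≤ ε / 4 := by
    simpa only [Set.mem_setOf_eq, not_lt] using hqB
  have hPq : ∀ x, P (x ^ q) = P x := by
    intro x
    simp only [hP]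
    refine Finset.sum_congr rfl fun i _ => ?_
    rw [chr_pow_eq (ho i) (Finset.dvd_prod_of_mem o (Finset.mem_univ i)) hqQ hq.one_lt.le x]
  have hpt : ∀ x, ‖F (x ^ q) - F x‖ ≤ g (x ^ q) + g x := by
    intro x
    have e1 : F (x ^ q) - F x = (F (x ^ q) - P (x ^ q)) - (F x - P x) := by
      rw [hPq x]; abel
    rw [e1]
    exact norm_sub_le _ _
  have hgq : StronglyMeasurable (fun x : K => g (x ^ q)) :=
    hgsm.comp_measurable (continuous_pow q).measurable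
  have hi1 : Integrable (fun x : K => g (x ^ q)) m := hgL _ hgq fun y => hgb _
  have hi2 : Integrable g m := hgL _ hgsm hgb
  have h1 : ∫ x, ‖F (x ^ q) - F x‖ ∂m ≤ ∫ x, (g (x ^ q) + g x) ∂m := by
    refine integral_mono_of_nonneg (Filter.Eventually.of_forall fun x => norm_nonneg _)
      (hi1.add hi2) (Filter.Eventually.of_forall hpt)
  rw [integral_add hi1 hi2] at h1
  have h2 := abs_le.mp hqB'
  have h3 : ∫ y, g y ∂m ≤ ε / 4 := hint
  linarith [h2.2]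
-- END ta7

-- BEGIN ta8
/-- T2: for all `t` in a bounded interval: a finite net `t_k` with `2 √(2 |t - t_k|) ≤ ε / 2`, `tor_good` for the
`Ψ t_k` with `ε / 2`, the product of the `Q_k`, the union of the `B_k`; `ae_pow`. -/
theorem tor_good_all (hK : KD K u) {C : ℝ} {Ψ : ℝ → K → (E →L[ℂ] H)} (hΨ : Fam m C Ψ)
    (ht : ∀ t, Tor1 m (Ψ t)) (T₀ : ℝ) {ε : ℝ} (hε : 0 < ε) :
    ∃ (Q : ℕ) (B : Set ℕ), 1 ≤ Q ∧ Thin B ∧ ∀ q : ℕ, q.Prime → q ∉ B → q % Q = 1 % Q →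
      ∀ t : ℝ, |t| ≤ T₀ → ∫ x, ‖Ψ t (x ^ q) - Ψ t x‖ ∂m ≤ ε := by
  have hδ : 0 < ε ^ 2 / 32 := by positivity
  obtain ⟨N, _, hNfin, hN⟩ := (isCompact_Icc (a := -T₀) (b := T₀)).finite_cover_balls hδ
  have hgood := fun t : ℝ => tor_good hK (hΨ.sm t) (hΨ.bdd t) (ht t) (half_pos hε)
  choose Qf Bf' hQ1 hB hgood' using hgood
  refine ⟨∏ t ∈ hNfin.toFinset, Qf t, ⋃ t ∈ hNfin.toFinset, Bf' t,
    Finset.one_le_prod' (fun t _ => hQ1 t), Thin.biUnion _ _ (fun t _ => hB t), ?_⟩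
  intro q hqp hqB hqQ t htT
  have hq1 : 1 ≤ q := hqp.one_lt.le
  obtain ⟨t₁, ht₁N, ht₁⟩ : ∃ t₁ ∈ N, t ∈ Metric.ball t₁ (ε ^ 2 / 32) := by
    have := hN (show t ∈ Set.Icc (-T₀) T₀ from abs_le.mp htT)
    simpa using this
  have hmem : t₁ ∈ hNfin.toFinset := hNfin.mem_toFinset.mpr ht₁N
  have hqB₁ : q ∉ Bf' t₁ := fun h => hqB (Set.mem_biUnion hmem h)
  have hqQ₁ : q % Qf t₁ = 1 % Qf t₁ := mod_one_of_dvd (Finset.dvd_prod_of_mem _ hmem) hqQ
  have h1 := hgood' t₁ q hqp hqB₁ hqQ₁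
  have hdist : |t - t₁| ≤ ε ^ 2 / 32 := by
    rw [Metric.mem_ball, Real.dist_eq] at ht₁
    exact ht₁.le
  have hsq : ∀ r : ℝ, r ≤ ε ^ 2 / 32 → Real.sqrt (2 * r) ≤ ε / 4 := by
    intro r hr
    rw [show ε / 4 = Real.sqrt ((ε / 4) ^ 2) from (Real.sqrt_sq (by positivity)).symm]
    exact Real.sqrt_le_sqrt (by nlinarith)
  have hc1 : ∀ᵐ x ∂m, ‖Ψ t x - Ψ t₁ x‖ ≤ ε / 4 := by
    filter_upwards [hΨ.cont t t₁] with x hx
    exact hx.trans (hsq _ hdist)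
  have hc2 : ∀ᵐ x ∂m, ‖Ψ t (x ^ q) - Ψ t₁ (x ^ q)‖ ≤ ε / 4 := ae_pow hK hq1 hc1
  have hmeas : Measurable (fun x : K => x ^ q) := (continuous_pow q).measurable
  have hint : Integrable (fun x => ‖Ψ t₁ (x ^ q) - Ψ t₁ x‖) m := by
    refine Integrable.of_bound
      (((hΨ.sm t₁).comp_measurable hmeas).sub (hΨ.sm t₁)).norm.aestronglyMeasurable (C + C)
      (Filter.Eventually.of_forall fun x => ?_)
    rw [norm_norm]
    exact (norm_sub_le _ _).trans (add_le_add (hΨ.bdd t₁ _) (hΨ.bdd t₁ _))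
  have hmono : ∫ x, ‖Ψ t (x ^ q) - Ψ t x‖ ∂m ≤ ∫ x, (ε / 2 + ‖Ψ t₁ (x ^ q) - Ψ t₁ x‖) ∂m := by
    refine integral_mono_of_nonneg (Filter.Eventually.of_forall fun x => norm_nonneg _)
      ((integrable_const _).add hint) ?_
    filter_upwards [hc1, hc2] with x hx1 hx2
    have h3 : Ψ t (x ^ q) - Ψ t x
        = (Ψ t (x ^ q) - Ψ t₁ (x ^ q)) + (Ψ t₁ (x ^ q) - Ψ t₁ x) - (Ψ t x - Ψ t₁ x) := by
      abel
    rw [h3]
    refine (norm_sub_le _ _).trans ?_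
    have h4 := norm_add_le (Ψ t (x ^ q) - Ψ t₁ (x ^ q)) (Ψ t₁ (x ^ q) - Ψ t₁ x)
    show _ ≤ ε / 2 + ‖Ψ t₁ (x ^ q) - Ψ t₁ x‖
    linarith
  refine hmono.trans ?_
  rw [integral_add (integrable_const _) hint]
  simp only [integral_const, probReal_univ, smul_eq_mul, one_mul]
  linarith
-- END ta8

-- BEGIN ta9
private theorem ta9_step {C : ℝ} {Ψ : ℝ → K → (E →L[ℂ] H)} (hΨ : Fam m C Ψ) {q : ℕ} {T₀ ε : ℝ}
    (hq : ∀ t : ℝ, |t| ≤ T₀ → ∫ x, ‖Ψ t (x ^ q) - Ψ t x‖ ∂m ≤ ε) {t : ℝ} (ht : |t| ≤ T₀)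
    {a b : K → E} (ha : BMf a) (hb : BMf b) (ha1 : ∀ y, ‖a y‖ ≤ 1) (hb1 : ∀ y, ‖b y‖ ≤ 1) :
    ‖inner ℂ (opI m (fun x => Ψ t (x ^ q)) a) (opI m (fun x => Ψ t (x ^ q)) b) -
      Bf m Ψ t a b‖ ≤ 2 * C * ε := by
  have hC0 : 0 ≤ C := hΨ.C_nonneg
  have hsm : StronglyMeasurable (fun x => Ψ t (x ^ q)) :=
    (hΨ.sm t).comp_measurable (continuous_pow q).measurable
  have hε : 0 ≤ ε := (integral_nonneg fun x => norm_nonneg _).trans (hq t ht)
  have h1 : ∀ {c : K → E}, BMf c → (∀ y, ‖c y‖ ≤ 1) →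
      ‖opI m (fun x => Ψ t (x ^ q)) c - opI m (Ψ t) c‖ ≤ ε := by
    intro c hc hc1
    have h := norm_opI_sub_le (m := m) hsm (hΨ.sm t) (C := C) (D := 1)
      (fun y => hΨ.bdd t (y ^ q)) (fun y => hΨ.bdd t y) hc hc1
    rw [one_mul] at h
    exact h.trans (hq t ht)
  have h2 : ‖opI m (fun x => Ψ t (x ^ q)) b‖ ≤ C := by
    have h := norm_opI_le (m := m) (Ψ := fun x => Ψ t (x ^ q)) (C := C) (D := 1)
      (fun y => hΨ.bdd t (y ^ q)) hC0 hb1
    rwa [mul_one] at h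
  have h3 : ‖opI m (Ψ t) a‖ ≤ C := by
    have h := norm_opI_le (m := m) (Ψ := Ψ t) (C := C) (D := 1)
      (fun y => hΨ.bdd t y) hC0 ha1
    rwa [mul_one] at h
  have h4 := norm_inner_sub_le (opI m (fun x => Ψ t (x ^ q)) a) (opI m (fun x => Ψ t (x ^ q)) b)
    (opI m (Ψ t) a) (opI m (Ψ t) b)
  unfold Bf
  refine h4.trans ?_
  have h5 := mul_le_mul (h1 ha ha1) h2 (norm_nonneg _) hε
  have h6 := mul_le_mul h3 (h1 hb hb1) (norm_nonneg _) hC0
  linarith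

/-- T3, one step: replace `Ψ t x` by `Ψ t (x^q)` (error `ε` in `opI`), use `Rel.int`, replace `Ψ (x^q')` by `Ψ x`. -/
theorem one_step {C : ℝ} {Ψ : ℝ → K → (E →L[ℂ] H)} (hΨ : Fam m C Ψ) {q q' : ℕ}
    {τ : K → (E ≃ₗᵢ[ℂ] E)} (hτ : FM τ) (h : Rel m Ψ q q' τ) {T₀ ε : ℝ} (hε : 0 ≤ ε)
    (hq : ∀ t : ℝ, |t| ≤ T₀ → ∫ x, ‖Ψ t (x ^ q) - Ψ t x‖ ∂m ≤ ε)
    (hq' : ∀ t : ℝ, |t| ≤ T₀ → ∫ x, ‖Ψ t (x ^ q') - Ψ t x‖ ∂m ≤ ε) {t : ℝ} (ht : |t| ≤ T₀)
    (ht' : |t + (Real.log q' - Real.log q)| ≤ T₀) {a b : K → E} (ha : BMf a) (hb : BMf b)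
    (ha1 : ∀ y, ‖a y‖ ≤ 1) (hb1 : ∀ y, ‖b y‖ ≤ 1) :
    ‖Bf m Ψ t a b - Bf m Ψ (t + (Real.log q' - Real.log q)) (fun y => τ y (a y))
      (fun y => τ y (b y))‖ ≤ 4 * C * ε := by
  have e1 := ta9_step hΨ hq ht ha hb ha1 hb1
  have e2 := ta9_step hΨ hq' ht' (BMf.act ha hτ) (BMf.act hb hτ)
    (fun y => by rw [LinearIsometryEquiv.norm_map]; exact ha1 y)
    (fun y => by rw [LinearIsometryEquiv.norm_map]; exact hb1 y)
  have e3 := Rel.int hΨ hτ h t ha hb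
  rw [e3] at e1
  have e4 : ∀ x y z : ℂ, ‖z - x‖ ≤ 2 * C * ε → ‖z - y‖ ≤ 2 * C * ε → ‖x - y‖ ≤ 4 * C * ε := by
    intro x y z h1 h2
    have h3 : x - y = (z - y) - (z - x) := by ring
    rw [h3]
    have h4 := norm_sub_le (z - y) (z - x)
    linarith
  exact e4 _ _ _ e1 e2

/-- T3, iterated with the same `τ` -/
theorem iter_step {C : ℝ} {Ψ : ℝ → K → (E →L[ℂ] H)} (hΨ : Fam m C Ψ) {q q' : ℕ}
    {τ : K → (E ≃ₗᵢ[ℂ] E)} (hτ : FM τ) (h : Rel m Ψ q q' τ) {T₀ ε : ℝ} (hε : 0 ≤ ε)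
    (hq : ∀ t : ℝ, |t| ≤ T₀ → ∫ x, ‖Ψ t (x ^ q) - Ψ t x‖ ∂m ≤ ε)
    (hq' : ∀ t : ℝ, |t| ≤ T₀ → ∫ x, ‖Ψ t (x ^ q') - Ψ t x‖ ∂m ≤ ε) (k : ℕ) {t : ℝ}
    (ht : |t| + k * |Real.log q' - Real.log q| ≤ T₀) {a b : K → E} (ha : BMf a) (hb : BMf b)
    (ha1 : ∀ y, ‖a y‖ ≤ 1) (hb1 : ∀ y, ‖b y‖ ≤ 1) :
    ‖Bf m Ψ t a b - Bf m Ψ (t + k * (Real.log q' - Real.log q)) (fun y => (τ y ^ k) (a y))
      (fun y => (τ y ^ k) (b y))‖ ≤ k * (4 * C * ε) := by
  induction k with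
  | zero =>
    have h0 : ∀ (g : E ≃ₗᵢ[ℂ] E) (v : E), (g ^ 0) v = v := fun g v => by
      rw [pow_zero]; rfl
    simp only [h0, Nat.cast_zero, zero_mul, add_zero, sub_self, norm_zero, le_refl]
  | succ k ih =>
    have hν : 0 ≤ |Real.log q' - Real.log q| := abs_nonneg _
    have hk : (0 : ℝ) ≤ k := Nat.cast_nonneg k
    rw [Nat.cast_succ] at ht
    have ht1 : |t| + k * |Real.log q' - Real.log q| ≤ T₀ := by nlinarith
    have ih1 := ih ht1
    have hb0 : ∀ c : ℝ, 0 ≤ c → |t + c * (Real.log q' - Real.log q)| ≤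
        |t| + c * |Real.log q' - Real.log q| := by
      intro c hc
      refine (abs_add_le _ _).trans ?_
      rw [abs_mul, abs_of_nonneg hc]
    have hs : t + (k : ℝ) * (Real.log q' - Real.log q) + (Real.log q' - Real.log q) =
        t + ((k : ℝ) + 1) * (Real.log q' - Real.log q) := by ring
    have ht2 : |t + (k : ℝ) * (Real.log q' - Real.log q)| ≤ T₀ := (hb0 k hk).trans ht1
    have ht3 : |t + (k : ℝ) * (Real.log q' - Real.log q) + (Real.log q' - Real.log q)| ≤ T₀ := by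
      rw [hs]
      exact (hb0 (k + 1) (by linarith)).trans ht
    have hak : BMf (fun y => (τ y ^ k) (a y)) := BMf.act ha (FM.pow hτ k)
    have hbk : BMf (fun y => (τ y ^ k) (b y)) := BMf.act hb (FM.pow hτ k)
    have st := one_step hΨ hτ h hε hq hq' ht2 ht3 hak hbk
      (fun y => by rw [LinearIsometryEquiv.norm_map]; exact ha1 y)
      (fun y => by rw [LinearIsometryEquiv.norm_map]; exact hb1 y)
    have hp : ∀ (g : E ≃ₗᵢ[ℂ] E) (v : E), g ((g ^ k) v) = (g ^ (k + 1)) v := fun g v => by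
      rw [pow_succ']; rfl
    rw [hs] at st
    simp only [hp] at st
    rw [Nat.cast_succ]
    have e4 : ∀ x y z : ℂ, ‖x - y‖ ≤ k * (4 * C * ε) → ‖y - z‖ ≤ 4 * C * ε →
        ‖x - z‖ ≤ ((k : ℝ) + 1) * (4 * C * ε) := by
      intro x y z h1 h2
      have h3 : x - z = (x - y) + (y - z) := by ring
      rw [h3]
      have h4 := norm_add_le (x - y) (y - z)
      linarith
    exact e4 _ _ _ ih1 st
-- END ta9

-- BEGIN ta10
/-- T4, approximate periods. `k = Nat.card G`, `τ y ^ k = 1` (`pow_card_eq_one'` in the subgroup `G`). Given `ρ₀` take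
`ρ₁` from `hS` for `ρ₀ / k`; given `T, ε` let `T₀ = T + ρ₀`, `4 k C ε' ≤ ε`, `Q, B` from `tor_good_all`, then the pair
from `hS`; `ν = k (log q' - log q)`. -/
theorem approx_period (hK : KD K u) {G : Subgroup (E ≃ₗᵢ[ℂ] E)} (hG : Finite G) {C : ℝ}
    {Ψ : ℝ → K → (E →L[ℂ] H)} (hΨ : Fam m C Ψ) (hS : Sup m G Ψ) (ht : ∀ t, Tor1 m (Ψ t))
    {ρ₀ : ℝ} (hρ₀ : 0 < ρ₀) : ∃ ρ₁ : ℝ, 0 < ρ₁ ∧ ∀ T ε : ℝ, 0 < ε → ∃ ν : ℝ, ρ₁ ≤ ν ∧ ν ≤ ρ₀ ∧
      ∀ (t : ℝ) (a b : K → E), |t| ≤ T → BMf a → BMf b → (∀ y, ‖a y‖ ≤ 1) → (∀ y, ‖b y‖ ≤ 1) →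
        ‖Bf m Ψ t a b - Bf m Ψ (t + ν) a b‖ ≤ ε := by
  have hk : 0 < Nat.card G := by
    have : Finite G := hG
    exact Nat.card_pos
  have hk0 : (0 : ℝ) < (Nat.card G : ℝ) := by exact_mod_cast hk
  have hC0 : 0 ≤ C := hΨ.C_nonneg
  obtain ⟨ρ₁, hρ₁, hsup⟩ := hS (ρ₀ / (Nat.card G : ℝ)) (div_pos hρ₀ hk0)
  refine ⟨(Nat.card G : ℝ) * ρ₁, mul_pos hk0 hρ₁, ?_⟩
  intro T ε hε
  have hD : (0 : ℝ) < (Nat.card G : ℝ) * (4 * (C + 1)) := mul_pos hk0 (by linarith)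
  obtain ⟨Q, B, hQ, hB, hgood⟩ := tor_good_all hK hΨ ht (T + ρ₀) (div_pos hε hD)
  obtain ⟨q, q', τ, hq, hq', hqB, hqB', hqQ, hqQ', _, h1, h2, hτ, hτG, hR⟩ := hsup B hB Q hQ 0
  have h3 : (Nat.card G : ℝ) * (Real.log q' - Real.log q) ≤ ρ₀ := by
    have := mul_le_mul_of_nonneg_left h2 hk0.le
    rwa [mul_div_cancel₀ _ hk0.ne'] at this
  have h0 : 0 ≤ Real.log q' - Real.log q := le_trans hρ₁.le h1
  refine ⟨(Nat.card G : ℝ) * (Real.log q' - Real.log q), mul_le_mul_of_nonneg_left h1 hk0.le, h3,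
    ?_⟩
  intro t a b htT ha hb ha1 hb1
  have hpow : ∀ y, τ y ^ Nat.card G = 1 := by
    intro y
    have h4 : (⟨τ y, hτG y⟩ : G) ^ Nat.card G = 1 := pow_card_eq_one'
    have h5 := congrArg (Subtype.val : G → (E ≃ₗᵢ[ℂ] E)) h4
    simpa only [Subgroup.coe_pow, Subgroup.coe_one] using h5
  have h6 := iter_step hΨ hτ hR (div_pos hε hD).le (hgood q hq hqB hqQ) (hgood q' hq' hqB' hqQ')
    (Nat.card G) (t := t) (by rw [abs_of_nonneg h0]; linarith) ha hb ha1 hb1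
  have h7 : (fun y => (τ y ^ Nat.card G) (a y)) = a := by
    funext y
    rw [hpow y]
    rfl
  have h8 : (fun y => (τ y ^ Nat.card G) (b y)) = b := by
    funext y
    rw [hpow y]
    rfl
  rw [h7, h8] at h6
  refine h6.trans ?_
  have h9 : (Nat.card G : ℝ) * (4 * C * (ε / ((Nat.card G : ℝ) * (4 * (C + 1))))) =
      ε * (C / (C + 1)) := by
    field_simp
  rw [h9]
  have h10 : C / (C + 1) ≤ 1 := by
    rw [div_le_one (by linarith)]
    linarith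
  calc ε * (C / (C + 1)) ≤ ε * 1 := mul_le_mul_of_nonneg_left h10 hε.le
    _ = ε := mul_one ε
-- END ta10

-- BEGIN ta11
/-- A function with a uniform modulus of continuity and arbitrarily small approximate periods is constant.
Proof: given `ε`: `ω(ρ₀) ≤ ε`; `ρ₁`; `N = ⌈|t| / ρ₁⌉ + 1`; the approximate period for `T = |t| + 1 + ρ₀` and
`ε / N`; after at most `N` steps of length `ν` from the smaller one of `0, t` one is within `ν ≤ ρ₀` of the
other one. So `‖F t - F 0‖ ≤ 2 ε`. -/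
theorem eq_of_approx_period {F : ℝ → ℂ} {D : ℝ}
    (hc : ∀ t t' : ℝ, ‖F t - F t'‖ ≤ D * Real.sqrt |t - t'|)
    (hp : ∀ ρ₀ : ℝ, 0 < ρ₀ → ∃ ρ₁ : ℝ, 0 < ρ₁ ∧ ∀ T ε : ℝ, 0 < ε → ∃ ν : ℝ, ρ₁ ≤ ν ∧ ν ≤ ρ₀ ∧
      ∀ t : ℝ, |t| ≤ T → ‖F t - F (t + ν)‖ ≤ ε) (t : ℝ) : F t = F 0 := by
  have hD : 0 ≤ D := by
    have h := (norm_nonneg _).trans (hc 0 1)
    have e : Real.sqrt |(0 : ℝ) - 1| = 1 := by norm_num
    rw [e, mul_one] at h
    exact h
  have key : ∀ s s' : ℝ, s ≤ s' → ∀ ε : ℝ, 0 < ε → ‖F s - F s'‖ ≤ 2 * ε := by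
    intro s s' hss ε hε
    have hρ0 : 0 < (ε / (D + 1)) ^ 2 := by positivity
    obtain ⟨ρ₁, hρ1, hh⟩ := hp _ hρ0
    set N : ℕ := ⌈(s' - s) / ρ₁⌉₊ + 1 with hN
    have hN0 : (0 : ℝ) < N := by rw [hN]; positivity
    obtain ⟨ν, hν1, hν2, hper⟩ := hh (|s| + |s'|) (ε / N) (by positivity)
    have hν : 0 < ν := lt_of_lt_of_le hρ1 hν1
    set k : ℕ := ⌊(s' - s) / ν⌋₊ with hk
    have hk1 : (k : ℝ) * ν ≤ s' - s := by
      have := Nat.floor_le (show 0 ≤ (s' - s) / ν by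
        exact div_nonneg (by linarith) hν.le)
      rw [← hk] at this
      exact (le_div_iff₀ hν).mp this
    have hk2 : s' - s < ((k : ℝ) + 1) * ν := by
      have := Nat.lt_floor_add_one ((s' - s) / ν)
      rw [← hk] at this
      exact (div_lt_iff₀ hν).mp this
    have hkN : (k : ℝ) ≤ N := by
      have h1 : (k : ℝ) ≤ (s' - s) / ρ₁ := by
        rw [le_div_iff₀ hρ1]
        exact le_trans (mul_le_mul_of_nonneg_left hν1 (Nat.cast_nonneg k)) hk1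
      have h2 : (s' - s) / ρ₁ ≤ (⌈(s' - s) / ρ₁⌉₊ : ℝ) := Nat.le_ceil _
      rw [hN]
      push_cast
      linarith
    have hind : ∀ j : ℕ, j ≤ k → ‖F s - F (s + j * ν)‖ ≤ j * (ε / N) := by
      intro j
      induction j with
      | zero => intro _; simp
      | succ j ih =>
        intro hj
        have hj1 : (j : ℝ) * ν ≤ s' - s := by
          refine le_trans ?_ hk1
          exact mul_le_mul_of_nonneg_right (by exact_mod_cast (by omega : j ≤ k)) hν.le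
        have hj0 : 0 ≤ (j : ℝ) * ν := by positivity
        have habs : |s + j * ν| ≤ |s| + |s'| := by
          rw [abs_le]
          constructor
          · have := neg_abs_le s
            have := abs_nonneg s'
            linarith
          · have := le_abs_self s'
            have := abs_nonneg s
            linarith
        have h1 := ih (by omega)
        have h2 := hper _ habs
        have e1 : s + ((j + 1 : ℕ) : ℝ) * ν = s + j * ν + ν := by push_cast; ring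
        rw [e1]
        have h3 : ‖F s - F (s + j * ν + ν)‖ ≤ ‖F s - F (s + j * ν)‖ +
            ‖F (s + j * ν) - F (s + j * ν + ν)‖ := by
          have e2 : F s - F (s + j * ν + ν) = (F s - F (s + j * ν)) +
              (F (s + j * ν) - F (s + j * ν + ν)) := by ring
          rw [e2]
          exact norm_add_le _ _
        push_cast
        linarith
    have h4 := hind k le_rfl
    have h5 : (k : ℝ) * (ε / N) ≤ ε := by
      calc (k : ℝ) * (ε / N) ≤ N * (ε / N) := mul_le_mul_of_nonneg_right hkN (by positivity)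
        _ = ε := by field_simp
    have h6 : ‖F (s + k * ν) - F s'‖ ≤ ε := by
      refine (hc _ _).trans ?_
      have h7 : |s + k * ν - s'| ≤ (ε / (D + 1)) ^ 2 := by
        rw [abs_le]
        constructor <;> nlinarith
      have h8 : Real.sqrt |s + k * ν - s'| ≤ ε / (D + 1) := by
        rw [Real.sqrt_le_left (by positivity)]
        exact h7
      calc D * Real.sqrt |s + k * ν - s'| ≤ D * (ε / (D + 1)) :=
            mul_le_mul_of_nonneg_left h8 hD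
        _ = ε * (D / (D + 1)) := by ring
        _ ≤ ε * 1 := by
            refine mul_le_mul_of_nonneg_left ?_ hε.le
            rw [div_le_one (by positivity)]
            linarith
        _ = ε := mul_one _
    have e3 : F s - F s' = (F s - F (s + k * ν)) + (F (s + k * ν) - F s') := by ring
    rw [e3]
    refine (norm_add_le _ _).trans ?_
    linarith
  have hz : ∀ s s' : ℝ, s ≤ s' → F s = F s' := by
    intro s s' hss
    by_contra hne
    have hpos : 0 < ‖F s - F s'‖ := norm_pos_iff.mpr (sub_ne_zero.mpr hne)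
    have := key s s' hss (‖F s - F s'‖ / 4) (by positivity)
    linarith
  rcases le_total t 0 with h | h
  · exact hz t 0 h
  · exact (hz 0 t h).symm

/-- continuity of the form in `t` -/
theorem Bf_cont {C : ℝ} {Ψ : ℝ → K → (E →L[ℂ] H)} (hΨ : Fam m C Ψ) {a b : K → E} (ha : BMf a)
    (hb : BMf b) (ha1 : ∀ y, ‖a y‖ ≤ 1) (hb1 : ∀ y, ‖b y‖ ≤ 1) (t t' : ℝ) :
    ‖Bf m Ψ t a b - Bf m Ψ t' a b‖ ≤ (2 * C * Real.sqrt 2) * Real.sqrt |t - t'| := by
  have hC0 : 0 ≤ C := (norm_nonneg _).trans (hΨ.bdd 0 1)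
  have hint : ∫ y, ‖Ψ t y - Ψ t' y‖ ∂m ≤ Real.sqrt (2 * |t - t'|) := by
    have h1 : ∫ y, ‖Ψ t y - Ψ t' y‖ ∂m ≤ ∫ _y : K, Real.sqrt (2 * |t - t'|) ∂m :=
      integral_mono_of_nonneg (Filter.Eventually.of_forall fun y => norm_nonneg _)
        (integrable_const _) (hΨ.cont t t')
    simpa using h1
  have hdiff : ∀ c : K → E, BMf c → (∀ y, ‖c y‖ ≤ 1) →
      ‖opI m (Ψ t) c - opI m (Ψ t') c‖ ≤ Real.sqrt (2 * |t - t'|) := by
    intro c hc hc1
    have := norm_opI_sub_le (m := m) (hΨ.sm t) (hΨ.sm t') (hΨ.bdd t) (hΨ.bdd t') hc hc1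
    rw [one_mul] at this
    exact this.trans hint
  have hno : ∀ (s : ℝ) (c : K → E), (∀ y, ‖c y‖ ≤ 1) → ‖opI m (Ψ s) c‖ ≤ C := by
    intro s c hc1
    have := norm_opI_le (m := m) (hΨ.bdd s) hC0 hc1
    rwa [mul_one] at this
  unfold Bf
  refine (norm_inner_sub_le _ _ _ _).trans ?_
  have hs : Real.sqrt (2 * |t - t'|) = Real.sqrt 2 * Real.sqrt |t - t'| :=
    Real.sqrt_mul (by norm_num) _
  have hs0 : 0 ≤ Real.sqrt (2 * |t - t'|) := Real.sqrt_nonneg _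
  have h1 : ‖opI m (Ψ t) a - opI m (Ψ t') a‖ * ‖opI m (Ψ t) b‖ ≤ Real.sqrt (2 * |t - t'|) * C :=
    mul_le_mul (hdiff a ha ha1) (hno t b hb1) (norm_nonneg _) hs0
  have h2 : ‖opI m (Ψ t') a‖ * ‖opI m (Ψ t) b - opI m (Ψ t') b‖ ≤ C * Real.sqrt (2 * |t - t'|) :=
    mul_le_mul (hno t' a ha1) (hdiff b hb hb1) (norm_nonneg _) hC0
  calc _ ≤ Real.sqrt (2 * |t - t'|) * C + C * Real.sqrt (2 * |t - t'|) := add_le_add h1 h2
    _ = (2 * C * Real.sqrt 2) * Real.sqrt |t - t'| := by rw [hs]; ring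
-- END ta11

-- BEGIN ta12
omit [CommGroup K] [TopologicalSpace K] [IsTopologicalGroup K] [CompactSpace K] [T2Space K]
  [SecondCountableTopology K] [BorelSpace K] [IsProbabilityMeasure m] [m.IsHaarMeasure]
  [FiniteDimensional ℂ E] [MeasurableSpace E] [BorelSpace E] [CompleteSpace H] in
private theorem ta12_smul (Ψ : K → (E →L[ℂ] H)) (c : ℂ) (a : K → E) :
    opI m Ψ (fun y => c • a y) = c • opI m Ψ a := by
  unfold opI
  rw [← integral_smul]
  refine integral_congr_ae (Filter.Eventually.of_forall fun y => ?_)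
  show Ψ y (c • a y) = c • Ψ y (a y)
  rw [_root_.map_smul]

omit [CommGroup K] [TopologicalSpace K] [IsTopologicalGroup K] [CompactSpace K] [T2Space K]
  [SecondCountableTopology K] [BorelSpace K] [FiniteDimensional ℂ E] in
private theorem ta12_scale {a : K → E} (ha : BMf a) : ∃ (c : ℂ) (a' : K → E), BMf a' ∧
    (∀ y, ‖a' y‖ ≤ 1) ∧ a = fun y => c • a' y := by
  obtain ⟨C, hC⟩ := ha.bdd
  have h1 : (0 : ℝ) < max C 1 := lt_of_lt_of_le one_pos (le_max_right _ _)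
  have h2 : ((max C 1 : ℝ) : ℂ) ≠ 0 := by exact_mod_cast h1.ne'
  have h3 : ∀ y, ‖(((max C 1 : ℝ) : ℂ)⁻¹) • a y‖ ≤ 1 := by
    intro y
    rw [norm_smul, norm_inv, Complex.norm_real, Real.norm_of_nonneg h1.le,
      inv_mul_le_iff₀ h1, mul_one]
    exact (hC y).trans (le_max_left _ _)
  refine ⟨((max C 1 : ℝ) : ℂ), fun y => (((max C 1 : ℝ) : ℂ)⁻¹) • a y, ⟨?_, 1, h3⟩, h3, ?_⟩
  · exact ha.meas.const_smul _
  · funext y
    rw [smul_smul, mul_inv_cancel₀ h2, one_smul]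

/-- T4. First for `‖a‖, ‖b‖ ≤ 1`, then scaling. -/
theorem invariantB (hK : KD K u) {G : Subgroup (E ≃ₗᵢ[ℂ] E)} (hG : Finite G) {C : ℝ}
    {Ψ : ℝ → K → (E →L[ℂ] H)} (hΨ : Fam m C Ψ) (hS : Sup m G Ψ) (ht : ∀ t, Tor1 m (Ψ t)) (t : ℝ)
    {a b : K → E} (ha : BMf a) (hb : BMf b) : Bf m Ψ t a b = Bf m Ψ 0 a b := by
  have h0 : ∀ {a b : K → E}, BMf a → BMf b → (∀ y, ‖a y‖ ≤ 1) → (∀ y, ‖b y‖ ≤ 1) →
      Bf m Ψ t a b = Bf m Ψ 0 a b := by
    intro a b ha hb ha1 hb1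
    refine eq_of_approx_period (F := fun s => Bf m Ψ s a b)
      (fun s s' => Bf_cont hΨ ha hb ha1 hb1 s s') (fun ρ₀ hρ₀ => ?_) t
    obtain ⟨ρ₁, hρ₁, h1⟩ := approx_period hK hG hΨ hS ht hρ₀
    refine ⟨ρ₁, hρ₁, fun T ε hε => ?_⟩
    obtain ⟨ν, hν1, hν2, h2⟩ := h1 T ε hε
    exact ⟨ν, hν1, hν2, fun s hs => h2 s a b hs ha hb ha1 hb1⟩
  obtain ⟨c, a', ha', ha1, rfl⟩ := ta12_scale ha
  obtain ⟨c', b', hb', hb1, rfl⟩ := ta12_scale hb
  have h1 := h0 ha' hb' ha1 hb1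
  unfold Bf at h1 ⊢
  rw [ta12_smul, ta12_smul, ta12_smul, ta12_smul, inner_smul_left, inner_smul_right,
    inner_smul_left, inner_smul_right, h1]

/-- T, abstract: translation invariance (`invariantB` for the gauged family) -/
theorem invariantA (hK : KD K u) {G : Subgroup (E ≃ₗᵢ[ℂ] E)} (hG : Finite G) {C : ℝ}
    {Φ : ℝ → K → (E →L[ℂ] H)} (hΦ : Fam m C Φ) (hS : Sup m G Φ)
    {f : K → (E ≃ₗᵢ[ℂ] E)} (hf : FM f) (hfG : ∀ y, f y ∈ G)
    (ht : ∀ t, Tor1 m (fun y => (Φ t y).comp (opU (f y)))) (t : ℝ) {a b : K → E}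
    (ha : BMf a) (hb : BMf b) :
    inner ℂ (∫ y, Φ t y (f y (a y)) ∂m) (∫ y, Φ t y (f y (b y)) ∂m) =
      inner ℂ (∫ y, Φ 0 y (f y (a y)) ∂m) (∫ y, Φ 0 y (f y (b y)) ∂m) :=
  invariantB hK hG (hΦ.gauge hf) (hS.gauge hf hfG) ht t ha hb
-- END ta12

end main

end Pool.Agent.S7
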